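import Pool.Agent.Lib.MP_86b0a6_an.EvMain

open Set Filter Topology MeasureTheory

namespace Pool.Agent.Results.MP_86b0a6_an.EveryFlow

section Defs

variable {X : Type*} [MeasurableSpace X]

/-- Equality almost everywhere of invertible measure preserving transformations. -/
def aeSetoid (μ : Measure X) : Setoid {T : X ≃ᵐ X // MeasurePreserving T μ μ} where
  r S T := S.1 =ᵐ[μ] T.1
  iseqv := ⟨fun _ => EventuallyEq.refl _ _, fun h => h.symm, fun h h' => h.trans h'⟩

/-- `Aut μ`: invertible measure preserving transformations of `(X, μ)` modulo null sets. -/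
def Aut (μ : Measure X) : Type _ := Quotient (aeSetoid μ)

variable {μ : Measure X}

/-- A representative of a class. -/
noncomputable def Aut.map (T : Aut μ) : X ≃ᵐ X := (Quotient.out T).1

theorem Aut.mp (T : Aut μ) : MeasurePreserving T.map μ μ := (Quotient.out T).2

/-- The set `T A`, as a point of the measure algebra with the distance `μ (A ∆ B)`. -/
noncomputable def Aut.act (T : Aut μ) (A : MeasuredSets μ) : MeasuredSets μ :=
  ⟨T.map '' A.1, T.map.measurableEmbedding.measurableSet_image.2 A.2⟩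

/-- The weak topology: the coarsest one making all maps `T ↦ T A` continuous, so that
`T n → T` iff `μ (T n A ∆ T A) → 0` for every measurable `A`. -/
noncomputable instance weakTopology : TopologicalSpace (Aut μ) :=
  ⨅ A : MeasuredSets μ, TopologicalSpace.induced (fun T : Aut μ => T.act A) inferInstance

/-- Sanity check: convergence in the weak topology is the one of the problem. -/
theorem tendsto_weak_iff {ι : Type*} (l : Filter ι) (S : ι → Aut μ) (T : Aut μ) :
    Tendsto S l (𝓝 T) ↔ ∀ A : Set X, MeasurableSet A →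
      Tendsto (fun n => μ (symmDiff ((S n).map '' A) (T.map '' A))) l (𝓝 0) := by
  rw [weakTopology, nhds_iInf, tendsto_iInf]
  simp only [nhds_induced, tendsto_comap_iff, tendsto_iff_edist_tendsto_0]
  exact ⟨fun h A hA => h ⟨A, hA⟩, fun h A => h A.1 A.2⟩

/-- A flow: a weakly continuous one parameter group in `Aut μ`. -/
structure IsFlow (Φ : ℝ → Aut μ) : Prop where
  add : ∀ s t : ℝ, (Φ (s + t)).map =ᵐ[μ] (Φ s).map ∘ (Φ t).map
  continuous : Continuous Φ

/-- The complex Hilbert space `L²(ν)`. -/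
abbrev L2 (ν : Measure X) : Type _ := Lp ℂ 2 ν

/-- The Koopman operator `F ↦ F ∘ R` of a measure preserving map `R`. -/
noncomputable def koopmanOf {ν : Measure X} (R : X → X) (hR : MeasurePreserving R ν ν)
    (F : L2 ν) : L2 ν :=
  MemLp.toLp (fun x => F (R x)) ((Lp.memLp F).comp_measurePreserving hR)

theorem koopmanOf_eq {ν : Measure X} (R : X → X) (hR : MeasurePreserving R ν ν) (F : L2 ν) :
    koopmanOf R hR F = Lp.compMeasurePreserving R hR F :=
  Lp.ext ((MemLp.coeFn_toLp _).trans (Lp.coeFn_compMeasurePreserving F hR).symm)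

/-- The closed linear span of a set of vectors. -/
def closedSpan {E : Type*} [NormedAddCommGroup E] [NormedSpace ℂ E] (s : Set E) : Set E :=
  closure (Submodule.span ℂ s : Set E)

variable [IsProbabilityMeasure μ]

/-- The operator `F ↦ F ∘ (T 1 × ⋯ × T k)` on `L²(X ^ k)`. -/
noncomputable def koopman {k : ℕ} (T : Fin k → Aut μ) :
    L2 (Measure.pi fun _ : Fin k => μ) → L2 (Measure.pi fun _ : Fin k => μ) :=
  koopmanOf (fun (x : Fin k → X) i => (T i).map (x i))
    (measurePreserving_pi _ _ fun i => (T i).mp)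

/-- The Hilbert tensor power of `L²₀(X)`: the closed span in `L²(X ^ k)` of the products
`f 1 (x 1) ⋯ f k (x k)` of square integrable functions with integral zero. -/
def tensorPower (μ : Measure X) [IsProbabilityMeasure μ] (k : ℕ) :
    Set (L2 (Measure.pi fun _ : Fin k => μ)) :=
  closedSpan {F : L2 (Measure.pi fun _ : Fin k => μ) |
    ∃ f : Fin k → L2 μ, (∀ i, ∫ x, f i x ∂μ = 0) ∧
      F =ᵐ[Measure.pi fun _ : Fin k => μ] fun x => ∏ i, f i (x i)}

/-- The product of the `T i` has simple spectrum: the closed span of the orbit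
`F, U F, U² F, …` of some vector `F` is the whole tensor power. -/
def SimpleSpectrum {k : ℕ} (T : Fin k → Aut μ) : Prop :=
  ∃ F : L2 (Measure.pi fun _ : Fin k => μ),
    closedSpan (range fun n : ℕ => (koopman T)^[n] F) = tensorPower μ k

end Defs

open Pool.Agent.Lib.MP_86b0a6_an unitInterval Polynomial

section Interval

variable {k : ℕ}

lemma mp_update (l : Fin k) :
    MeasurePreserving (fun p : (Fin k → I) × I => Function.update p.1 l p.2)
      ((PI k).prod volume) (PI k) := by
  have hm : Measurable fun p : (Fin k → I) × I => Function.update p.1 l p.2 :=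
    measurable_update'
  refine ⟨hm, (Measure.pi_eq fun s hs => ?_).symm⟩
  rw [Measure.map_apply hm (MeasurableSet.univ_pi hs)]
  have : (fun p : (Fin k → I) × I => Function.update p.1 l p.2) ⁻¹' univ.pi s =
      (univ.pi (Function.update s l univ)) ×ˢ s l := by
    ext p
    simp only [mem_preimage, mem_univ_pi, mem_prod]
    constructor
    · intro h
      refine ⟨fun i => ?_, by simpa using h l⟩
      by_cases hi : i = l
      · subst hi; simp
      · simpa [Function.update_of_ne hi] using h i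
    · rintro ⟨h1, h2⟩ i
      by_cases hi : i = l
      · subst hi; simpa using h2
      · simpa [Function.update_of_ne hi] using h1 i
  rw [this, Measure.prod_prod, Measure.pi_pi, ← Finset.mul_prod_erase _ _ (Finset.mem_univ l),
    ← Finset.mul_prod_erase _ (fun i => volume (s i)) (Finset.mem_univ l)]
  simp only [Function.update_self, measure_univ, one_mul]
  rw [mul_comm]
  congr 1
  exact Finset.prod_congr rfl fun i hi => by
    rw [Function.update_of_ne (Finset.ne_of_mem_erase hi)]

lemma tens_mem_of_mean {f : Fin k → L1'} (hf : ∀ l, ∫ x, f l x = 0) :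
    tens volume f ∈ HH k := by
  refine mem_HH.2 fun l g hg hi => ?_
  rw [inner_toLp hg (coeFn_tens f)]
  have hint : Integrable (fun x : Fin k → I => (∏ a, f a (x a)) * starRingEnd ℂ (g x)) (PI k) :=
    (memLp_tens f).integrable_mul (q := 2) (g := fun x => starRingEnd ℂ (g x))
      ((memLp_congr_norm (by exact RCLike.continuous_conj.comp_aestronglyMeasurable hg.1) hg.1
        (Eventually.of_forall fun x => by simp)).2 hg)
  have h1 := mp_update l
  conv_lhs => rw [← h1.map_eq]
  rw [integral_map h1.measurable.aemeasurable (by rw [h1.map_eq]; exact hint.1)]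
  refine (integral_prod _ (h1.integrable_comp_of_integrable hint)).trans ?_
  refine integral_eq_zero_of_ae (Eventually.of_forall fun x => ?_)
  have h2 : ∀ y : I, (∏ a, f a (Function.update x l y a)) * starRingEnd ℂ (g (Function.update x l y))
      = f l y * ((∏ a ∈ Finset.univ.erase l, f a (x a)) * starRingEnd ℂ (g x)) := fun y => by
    rw [hi, ← Finset.mul_prod_erase _ _ (Finset.mem_univ l), Function.update_self, mul_assoc]
    congr 2
    exact Finset.prod_congr rfl fun i hi => by
      rw [Function.update_of_ne (Finset.ne_of_mem_erase hi)]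
  simp only [Function.comp_apply, h2]
  rw [integral_mul_const, hf, zero_mul]
  rfl

lemma integral_xx (e : Iso (tm (Fin 2)) (volume : Measure I)) {j : Fin 2 → ℤ} (hj : j ≠ 0) :
    ∫ x, xx e j x = 0 := by
  obtain ⟨v, hv⟩ := exists_generic
  have hc : Continuous (chi j) := by unfold chi; fun_prop
  have h1 : ∫ x, xx e j x = ∫ ω, chi j ω ∂(tm (Fin 2)) := by
    rw [integral_congr_ae (coeFn_xx e j)]
    have := integral_map (μ := (volume : Measure I)) e.mp_inv.measurable.aemeasurable
      hc.aestronglyMeasurable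
    rw [e.mp_inv.map_eq] at this
    exact this.symm
  have h2 : ∫ ω, chi j (ω + v) ∂(tm (Fin 2)) = ∫ ω, chi j ω ∂(tm (Fin 2)) :=
    integral_add_right_eq_self _ v
  simp only [chi_add] at h2
  rw [integral_mul_const] at h2
  have h3 : (∫ ω, chi j ω ∂(tm (Fin 2))) * (chi j v - 1) = 0 := by linear_combination h2
  rw [h1]
  exact (mul_eq_zero.1 h3).resolve_right (sub_ne_zero.2 (hv j hj))

lemma mul_eq_one_symm {u v : GG} (h : v * u = 1) : u * v = 1 := by
  rw [← dist_eq_zero, ← dist_mul_right _ _ u, mul_assoc, h, mul_one, one_mul, dist_self]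

lemma units_residual : {u : GG | ∃ v, v * u = 1} ∈ residual GG := by
  have hd : Dense {u : GG | ∃ v, v * u = 1} := by
    refine Metric.dense_iff.2 fun R r hr => ?_
    obtain ⟨L, e, hL, h, -⟩ := king R one_pos 0 (show 0 < r / 2 by positivity)
    exact ⟨vert e L 1, h.trans_lt (by linarith), _, (vert_isPer e hL).1.neg_mul 1⟩
  have h1 : ∀ᶠ u in residual GG, ∀ n : ℕ, ∃ v, dist (v * u) 1 < 1 / ((n : ℝ) + 1) := by
    refine eventually_countable_forall.2 fun n => residual_of_dense_open ?_ (hd.mono ?_)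
    · simp only [ofPred_exists]
      exact isOpen_iUnion fun v => isOpen_lt (by fun_prop) continuous_const
    · rintro u ⟨v, hv⟩
      exact ⟨v, by rw [hv, dist_self]; positivity⟩
  refine h1.mono fun u hu => ?_
  choose v hv using hu
  have h2 : Tendsto (fun n => v n * u) atTop (𝓝 1) :=
    tendsto_iff_dist_tendsto_zero.2 (squeeze_zero (fun _ => dist_nonneg) (fun n => (hv n).le)
      tendsto_one_div_add_atTop_nhds_zero_nat)
  have h3 : CauchySeq v := by
    have := h2.cauchySeq
    rw [Metric.cauchySeq_iff] at this ⊢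
    simpa only [dist_mul_right] using this
  obtain ⟨w, hw⟩ := cauchySeq_tendsto_of_complete h3
  exact ⟨w, tendsto_nhds_unique (hw.mul_const u) h2⟩

end Interval

section Transfer

variable {X : Type*} [MeasurableSpace X] {μ : Measure X}

lemma integral_comp_mp {A B : Type*} [MeasurableSpace A] [MeasurableSpace B] {m : Measure A}
    {n : Measure B} {p : A → B} (hp : MeasurePreserving p m n) (f : Lp ℂ 2 n) :
    ∫ a, Lp.compMeasurePreserving p hp f a ∂m = ∫ b, f b ∂n := by
  rw [integral_congr_ae (Lp.coeFn_compMeasurePreserving f hp)]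
  have := integral_map (μ := m) hp.measurable.aemeasurable (f := f)
    (by rw [hp.map_eq]; exact Lp.aestronglyMeasurable f)
  rw [hp.map_eq] at this
  exact this.symm

lemma exists_iso [StandardBorelSpace X] (μ : Measure X) [IsProbabilityMeasure μ]
    [NullSingletonClass μ] : Nonempty (Iso μ (volume : Measure I)) := by
  obtain ⟨e0, he0⟩ := exists_measurableEmbedding_real X
  let ν := μ.map e0
  have : IsProbabilityMeasure ν := Measure.isProbabilityMeasure_map he0.measurable.aemeasurable
  have : NullSingletonClass ν := ⟨fun x => by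
    rw [Measure.map_apply he0.measurable (measurableSet_singleton x)]
    exact (subsingleton_singleton.preimage he0.injective).measure_zero μ⟩
  obtain ⟨e, -⟩ := exists_iso_near
    ((measurePreserving_cdfI ν).comp (⟨he0.measurable, rfl⟩ : MeasurePreserving e0 μ ν)) one_pos
  exact ⟨e⟩

lemma Aut.ext' {S T : Aut μ} (h : S.map =ᵐ[μ] T.map) : S = T := by
  rw [← Quotient.out_eq S, ← Quotient.out_eq T]
  exact Quotient.sound h

lemma Aut.exists_map {T : X ≃ᵐ X} (hT : MeasurePreserving T μ μ) :
    ∃ S : Aut μ, S.map =ᵐ[μ] T :=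
  ⟨Quotient.mk (aeSetoid μ) ⟨T, hT⟩, Quotient.mk_out (s := aeSetoid μ) ⟨T, hT⟩⟩

variable (e : Iso μ (volume : Measure I))

/-- The class on the interval of an automorphism. -/
noncomputable def J (T : Aut μ) : GG :=
  mk (e.toFun ∘ T.map ∘ e.invFun) (e.mp.comp (T.mp.comp e.mp_inv))

lemma J_eq_iff (T : Aut μ) {f : I → I} (hf : MP f) :
    J e T = mk f hf ↔ e.toFun ∘ T.map =ᵐ[μ] f ∘ e.toFun := by
  rw [J, mk_eq_iff]
  constructor
  · intro h
    filter_upwards [e.mp.quasiMeasurePreserving.ae h, e.left] with x h1 h2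
    simpa only [Function.comp_apply, h2] using h1
  · intro h
    filter_upwards [e.mp_inv.quasiMeasurePreserving.ae h, e.right] with x h1 h2
    simpa only [Function.comp_apply, h2] using h1

lemma J_rep (T : Aut μ) : e.toFun ∘ T.map =ᵐ[μ] rep (J e T) ∘ e.toFun :=
  (J_eq_iff e T (rep_mp _)).1 (mk_rep _).symm

lemma ae_of_comp {f g : X → X} (hf : MeasurePreserving f μ μ) (hg : MeasurePreserving g μ μ)
    (h : e.toFun ∘ f =ᵐ[μ] e.toFun ∘ g) : f =ᵐ[μ] g := by
  filter_upwards [h, hf.quasiMeasurePreserving.ae e.left, hg.quasiMeasurePreserving.ae e.left]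
    with x h1 h2 h3
  rw [← h2, ← h3]
  exact congrArg e.invFun h1

lemma J_injective : Function.Injective (J e) := fun S T h =>
  Aut.ext' (ae_of_comp e S.mp T.mp ((J_rep e S).trans (h ▸ (J_rep e T).symm)))

lemma J_mul {R S T : Aut μ} (h : J e R = J e S * J e T) : R.map =ᵐ[μ] S.map ∘ T.map := by
  refine ae_of_comp e R.mp (S.mp.comp T.mp) ?_
  rw [← mk_rep (J e S), ← mk_rep (J e T), mk_mul_mk, J_eq_iff] at h
  filter_upwards [h, J_rep e T, T.mp.quasiMeasurePreserving.ae (J_rep e S)] with x h1 h2 h3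
  simp only [Function.comp_apply] at h1 h2 h3 ⊢
  rw [h1, h3, h2]

lemma exists_J [StandardBorelSpace X] {u v : GG} (h1 : v * u = 1) : ∃ T : Aut μ, J e T = u := by
  obtain ⟨a, rfl⟩ := exists_jj h1 (mul_eq_one_symm h1)
  have hf := e.mp_inv.comp (a.2.comp e.mp)
  have hg := e.mp_inv.comp (a.2.symm.comp e.mp)
  obtain ⟨T, hT, hTf⟩ := exists_equiv_of_ae_inverse hf hg (by
      filter_upwards [(a.2.comp e.mp).quasiMeasurePreserving.ae e.right, e.left] with x h1 h2
      simp only [Function.comp_apply] at h1 ⊢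
      rw [h1, a.1.symm_apply_apply, h2]) (by
      filter_upwards [(a.2.symm.comp e.mp).quasiMeasurePreserving.ae e.right, e.left] with x h1 h2
      simp only [Function.comp_apply] at h1 ⊢
      rw [h1, a.1.apply_symm_apply, h2])
  obtain ⟨S, hS⟩ := Aut.exists_map hT
  refine ⟨S, (J_eq_iff e S a.2).2 ?_⟩
  filter_upwards [hS, hTf, (a.2.comp e.mp).quasiMeasurePreserving.ae e.right] with x h1 h2 h3
  simp only [Function.comp_apply] at h1 h2 h3 ⊢
  rw [h1, h2, h3]

lemma exists_AA (T : Aut μ) : ∃ a : AA, jj a = J e T := by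
  have h : mk (e.toFun ∘ T.map.symm ∘ e.invFun) (e.mp.comp (T.mp.symm.comp e.mp_inv)) * J e T
      = 1 := by
    rw [J, mk_mul_mk, one_def, mk_eq_iff]
    filter_upwards [(T.mp.comp e.mp_inv).quasiMeasurePreserving.ae e.left, e.right] with x h1 h2
    simp only [Function.comp_apply] at h1 ⊢
    rw [h1, T.map.symm_apply_apply, h2, id]
  exact exists_jj h (mul_eq_one_symm h)

lemma image_ae {T : Aut μ} {a : AA} (h : jj a = J e T) {A : Set X} {B : Set I}
    (hAB : A =ᵐ[μ] e.toFun ⁻¹' B) : T.map '' A =ᵐ[μ] e.toFun ⁻¹' (a.1 '' B) := by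
  have h1 := (J_eq_iff e T a.2).1 h.symm
  rw [← MeasurableEquiv.preimage_symm, ← MeasurableEquiv.preimage_symm]
  filter_upwards [T.mp.symm.quasiMeasurePreserving.ae h1, T.mp.symm.quasiMeasurePreserving.ae hAB]
    with x h2 h3
  simp only [Function.comp_apply, MeasurableEquiv.apply_symm_apply] at h2
  change A (T.map.symm x) = B (a.1.symm (e.toFun x))
  rw [h3, h2, a.1.symm_apply_apply]
  rfl

lemma dist_act [IsFiniteMeasure μ] {S T : Aut μ} {a b : AA} (ha : jj a = J e S)
    (hb : jj b = J e T) (A : MeasuredSets μ) {B : Set I} (hB : MeasurableSet B)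
    (hAB : A.1 =ᵐ[μ] e.toFun ⁻¹' B) :
    dist (S.act A) (T.act A) = dist (dd (indicatorConstLp 1 hB (measure_ne_top _ _) 1) a)
      (dd (indicatorConstLp 1 hB (measure_ne_top _ _) 1) b) := by
  rw [dist_dd, MeasuredSets.dist_def, ← e.mp.measureReal_preimage
    ((a.1.measurableEmbedding.measurableSet_image.2 hB).symmDiff
      (b.1.measurableEmbedding.measurableSet_image.2 hB)).nullMeasurableSet, preimage_symmDiff]
  exact measureReal_congr (EventuallyEq.symmDiff (image_ae e ha hAB) (image_ae e hb hAB))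

lemma continuous_J [IsFiniteMeasure μ] : Continuous (J e) := by
  choose a ha using exists_AA e
  have h := continuous_jj (S := a) fun B hB => ?_
  · simpa only [ha] using h
  let A : MeasuredSets μ := ⟨e.toFun ⁻¹' B, e.mp.measurable hB⟩
  have hA : Continuous fun T : Aut μ => T.act A :=
    continuous_iInf_dom (i := A) continuous_induced_dom
  refine continuous_iff_continuousAt.2 fun T => tendsto_iff_dist_tendsto_zero.2 ?_
  simp only [← dist_act e (ha _) (ha _) A hB (EventuallyEq.refl _ _)]
  exact tendsto_iff_dist_tendsto_zero.1 (hA.tendsto T)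

lemma continuous_of_J [IsFiniteMeasure μ] {Z : Type*} [TopologicalSpace Z] {Φ : Z → Aut μ}
    (h : Continuous fun z => J e (Φ z)) : Continuous Φ := by
  choose a ha using exists_AA e
  refine continuous_iInf_rng.2 fun A => continuous_induced_rng.2 ?_
  have hB : MeasurableSet (e.invFun ⁻¹' A.1) := e.mp_inv.measurable A.2
  have hAB : A.1 =ᵐ[μ] e.toFun ⁻¹' (e.invFun ⁻¹' A.1) := e.left.mono fun x hx => by
    change A.1 x = A.1 (e.invFun (e.toFun x))
    rw [hx]
  refine continuous_iff_continuousAt.2 fun z => tendsto_iff_dist_tendsto_zero.2 ?_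
  simp only [Function.comp_apply, dist_act e (ha _) (ha _) A hB hAB]
  exact tendsto_iff_dist_tendsto_zero.1
    ((continuous_dd (S := fun z => a (Φ z)) (by simpa only [ha] using h) _).tendsto z)

lemma isInducing_J [IsFiniteMeasure μ] : IsInducing (J e) := by
  refine ⟨le_antisymm (continuous_iff_le_induced.1 (continuous_J e)) ?_⟩
  exact continuous_id_iff_le.1 (@continuous_of_J X _ μ e _ _ (TopologicalSpace.induced (J e) _) id
    continuous_induced_dom)

variable [IsProbabilityMeasure μ] {k : ℕ}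

/-- Transport of functions from the cube. -/
noncomputable def W (k : ℕ) : LL k →L[ℂ] Lp ℂ 2 (Measure.pi fun _ : Fin k => μ) :=
  (Lp.compMeasurePreservingₗᵢ ℂ (fun (x : Fin k → X) i => e.toFun (x i))
    (measurePreserving_pi _ _ fun _ => e.mp)).toContinuousLinearMap

lemma W_tens (f : Fin k → L1') :
    W e k (tens volume f) = tens μ fun l => Lp.compMeasurePreserving _ e.mp (f l) :=
  comp_tens (fun _ => e.mp) f

lemma W_koop (T : Fin k → Aut μ) (F : LL k) :
    W e k (koop (fun l => J e (T l)) F) = koopman T (W e k F) := by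
  rw [koopman, koopmanOf_eq]
  change Lp.compMeasurePreserving _ _ (Lp.compMeasurePreserving _ _ F) =
    Lp.compMeasurePreserving _ _ (Lp.compMeasurePreserving _ _ F)
  rw [← Lp.compMeasurePreserving_comp_apply, ← Lp.compMeasurePreserving_comp_apply]
  refine comp_congr _ _ ?_ F
  filter_upwards [ae_pi fun l => J_rep e (T l)] with x hx
  exact funext fun l => (hx l).symm

lemma W_koop_pow (T : Fin k → Aut μ) (F : LL k) (n : ℕ) :
    W e k ((koop (fun l => J e (T l)) ^ n) F) = (koopman T)^[n] (W e k F) := by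
  induction n with
  | zero => rfl
  | succ n ih => rw [pow_succ', Function.iterate_succ_apply', mul_apply_eq_comp, W_koop, ih]

/-- The tensor power as a submodule. -/
noncomputable def TP (μ : Measure X) [IsProbabilityMeasure μ] (k : ℕ) :
    Submodule ℂ (Lp ℂ 2 (Measure.pi fun _ : Fin k => μ)) :=
  (Submodule.span ℂ (tens μ '' {f | ∀ i, ∫ x, f i x ∂μ = 0})).topologicalClosure

omit e in
lemma tensorPower_eq : tensorPower μ k = TP μ k := by
  have : {F : L2 (Measure.pi fun _ : Fin k => μ) |
    ∃ f : Fin k → L2 μ, (∀ i, ∫ x, f i x ∂μ = 0) ∧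
      F =ᵐ[Measure.pi fun _ : Fin k => μ] fun x => ∏ i, f i (x i)} =
      tens μ '' {f | ∀ i, ∫ x, f i x ∂μ = 0} := by
    ext F
    exact ⟨fun ⟨f, h1, h2⟩ => ⟨f, h1, Lp.ext ((coeFn_tens f).trans h2.symm)⟩,
      fun ⟨f, h1, h2⟩ => ⟨f, h1, h2 ▸ coeFn_tens f⟩⟩
  rw [tensorPower, this]
  rfl

omit e in
lemma tens_mem {f : Fin k → Lp ℂ 2 μ} (hf : ∀ i, ∫ x, f i x ∂μ = 0) : tens μ f ∈ TP μ k :=
  Submodule.le_topologicalClosure _ (Submodule.subset_span ⟨f, hf, rfl⟩)

omit e in
lemma isClosed_TP : IsClosed (TP μ k : Set (Lp ℂ 2 (Measure.pi fun _ : Fin k => μ))) :=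
  Submodule.isClosed_topologicalClosure _

omit e in
lemma TP_le {M : Submodule ℂ (Lp ℂ 2 (Measure.pi fun _ : Fin k => μ))}
    (hM : IsClosed (M : Set (Lp ℂ 2 (Measure.pi fun _ : Fin k => μ))))
    (h : ∀ f : Fin k → Lp ℂ 2 μ, (∀ i, ∫ x, f i x ∂μ = 0) → tens μ f ∈ M) : TP μ k ≤ M := by
  refine Submodule.topologicalClosure_minimal _ (Submodule.span_le.2 ?_) hM
  rintro _ ⟨f, hf, rfl⟩
  exact h f hf

omit e in
lemma koopman_mem (T : Fin k → Aut μ) {F : Lp ℂ 2 (Measure.pi fun _ : Fin k => μ)}
    (hF : F ∈ TP μ k) : koopman T F ∈ TP μ k := by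
  rw [koopman, koopmanOf_eq]
  let U := Lp.compMeasurePreservingₗᵢ (E := ℂ) (p := 2) ℂ
    (fun (x : Fin k → X) i => (T i).map (x i)) (measurePreserving_pi _ _ fun i => (T i).mp)
  refine TP_le (M := (TP μ k).comap U.toLinearMap)
    (isClosed_TP.preimage U.continuous) (fun f hf => ?_) hF
  change Lp.compMeasurePreserving _ _ (tens μ f) ∈ TP μ k
  rw [comp_tens fun i => (T i).mp]
  exact tens_mem fun i => by rw [integral_comp_mp, hf]

lemma W_mem {F : LL k} (hF : F ∈ HH k) : W e k F ∈ TP μ k := by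
  obtain ⟨L, e', -⟩ := king 1 one_pos 0 one_pos
  have hc : IsClosed ((TP μ k).comap (W e k).toLinearMap : Set (LL k)) :=
    isClosed_TP.preimage (W e k).continuous
  refine hc.closure_subset (Metric.mem_closure_iff.2 fun ε hε => ?_)
  obtain ⟨S, hS, G, hG, h⟩ := base_expansion e' hF hε
  refine ⟨G, Submodule.span_le.2 ?_ hG, by rwa [dist_eq_norm]⟩
  rintro _ ⟨j, hj, rfl⟩
  change W e k _ ∈ TP μ k
  rw [W_tens]
  exact tens_mem fun i => by rw [integral_comp_mp, integral_xx e' (hS j hj i)]

lemma simple_of_cyclic (T : Fin k → Aut μ) {F : LL k} (hF : F ∈ HH k)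
    (H : ∀ h ∈ HH k, ∀ ε > 0, ∃ q : ℂ[X], ‖h - aeval (koop fun l => J e (T l)) q F‖ < ε) :
    SimpleSpectrum T := by
  refine ⟨W e k F, ?_⟩
  rw [tensorPower_eq]
  refine congrArg SetLike.coe (show (Submodule.span ℂ
    (range fun n : ℕ => (koopman T)^[n] (W e k F))).topologicalClosure = TP μ k from
      le_antisymm ?_ ?_)
  · refine Submodule.topologicalClosure_minimal _ (Submodule.span_le.2 ?_) isClosed_TP
    rintro _ ⟨n, rfl⟩
    induction n with
    | zero => exact W_mem e hF
    | succ n ih =>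
      simp only [Function.iterate_succ_apply']
      exact koopman_mem T ih
  · refine TP_le (Submodule.isClosed_topologicalClosure _) fun f hf => ?_
    let g : Fin k → L1' := fun l => Lp.compMeasurePreserving _ e.mp_inv (f l)
    have h1 : W e k (tens volume g) = tens μ f := by
      rw [W_tens]
      congr 1
      funext l
      rw [← Lp.compMeasurePreserving_comp_apply,
        comp_congr (f := e.invFun ∘ e.toFun) (g := id) _ (MeasurePreserving.id μ) e.left]
      exact Lp.ext (Lp.coeFn_compMeasurePreserving _ _)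
    have h2 := tens_mem_of_mean (f := g) fun l => by rw [integral_comp_mp, hf]
    refine Metric.mem_closure_iff.2 fun ε hε => ?_
    obtain ⟨q, hq⟩ := H _ h2 ε hε
    refine ⟨W e k (aeval (koop fun l => J e (T l)) q F), ?_, ?_⟩
    · rw [aeval_eq_sum_range, sum_apply, map_sum]
      refine Submodule.sum_mem _ fun n _ => ?_
      rw [smul_apply, map_smul, W_koop_pow]
      exact Submodule.smul_mem _ _ (Submodule.subset_span ⟨n, rfl⟩)
    · rw [← h1, dist_eq_norm, ← map_sub]
      exact ((Lp.compMeasurePreservingₗᵢ ℂ (fun (x : Fin k → X) i => e.toFun (x i))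
        (measurePreserving_pi _ _ fun _ => e.mp)).norm_map _).trans_lt hq

omit [IsProbabilityMeasure μ] in
lemma J_mul' {R S T : Aut μ} (h : R.map =ᵐ[μ] S.map ∘ T.map) : J e R = J e S * J e T := by
  rw [← mk_rep (J e S), ← mk_rep (J e T), mk_mul_mk, J_eq_iff]
  filter_upwards [h, J_rep e T, T.mp.quasiMeasurePreserving.ae (J_rep e S)] with x h1 h2 h3
  simp only [Function.comp_apply] at h1 h2 h3 ⊢
  rw [h1, h3, h2]

lemma exists_flow {Φ : ℝ → Aut μ} (h : IsFlow Φ) : ∃ Ψ : C(ℝ, GG),
    Pool.Agent.Lib.MP_86b0a6_an.IsFlow Ψ ∧ ∀ s, Ψ s = J e (Φ s) := by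
  refine ⟨⟨fun s => J e (Φ s), (continuous_J e).comp h.continuous⟩,
    ⟨?_, fun s t => J_mul' e (h.add s t)⟩, fun _ => rfl⟩
  have h1 := J_mul' e (h.add 0 0)
  obtain ⟨a, ha⟩ := exists_AA e (Φ 0)
  rw [add_zero, ← ha] at h1
  change J e (Φ 0) = 1
  rw [← ha, ← ji_mul_jj a]
  conv_rhs => rw [h1, ← mul_assoc, ji_mul_jj, one_mul]

end Transfer

/-- For every standard non-atomic probability space there is a dense `G_δ` set of automorphisms
`T` such that `T` is the time one map of a flow, and for every flow with time one map `T` all the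
products `T t₁ ⊗ ⋯ ⊗ T tₖ` with `0 < t₁ < ⋯ < tₖ` have simple spectrum on the tensor power
of `L²₀`. -/
theorem result {X : Type*} [MeasurableSpace X] [StandardBorelSpace X] (μ : Measure X)
    [IsProbabilityMeasure μ] [NullSingletonClass μ] :
    ∃ G : Set (Aut μ), IsGδ G ∧ Dense G ∧ ∀ T ∈ G,
      (∃ Φ : ℝ → Aut μ, IsFlow Φ ∧ Φ 1 = T) ∧
      ∀ Φ : ℝ → Aut μ, IsFlow Φ → Φ 1 = T →
        ∀ k : ℕ, 1 ≤ k → ∀ t : Fin k → ℝ, (∀ i, 0 < t i) → StrictMono t →
          SimpleSpectrum fun i => Φ (t i) := by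
  obtain ⟨e⟩ := exists_iso μ
  obtain ⟨S, hSG, hSδ, hSd⟩ := mem_residual.1
    (inter_mem (inter_mem (residual_time_one univ_mem) residual_every) units_residual)
  refine ⟨J e ⁻¹' S, hSδ.preimage (continuous_J e), ?_, fun T hT => ⟨?_, ?_⟩⟩
  · rw [(isInducing_J e).dense_iff]
    intro T
    rw [image_preimage_eq_of_subset fun u hu => ?_]
    · exact hSd _
    · obtain ⟨v, hv⟩ := (hSG hu).2
      exact exists_J e hv
  · obtain ⟨Ψ, -, h1⟩ := (hSG hT).1.1
    have hΨ := XX.isFlow Ψ
    choose Φ hΦ using fun s => exists_J e (hΨ.neg_mul s)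
    exact ⟨Φ, ⟨fun s t => J_mul e (by rw [hΦ, hΦ, hΦ, hΨ.add]),
      continuous_of_J e (by simpa only [hΦ] using Ψ.1.continuous)⟩,
      J_injective e ((hΦ 1).trans h1)⟩
  · intro Φ hΦ h1 k _ t ht0 ht
    obtain ⟨Ψ, hΨ, hΨΦ⟩ := exists_flow e hΦ
    obtain ⟨F, hF, H⟩ := (hSG hT).1.2 Ψ hΨ (by rw [hΨΦ, h1]) k t ht0 ht.injective
    exact simple_of_cyclic e _ hF (by simpa only [hΨΦ] using H)

end Pool.Agent.Results.MP_86b0a6_an.EveryFlow
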